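import Pool.Agent.G02.Stmts
import Pool.Agent.Helper32_NJ.Stmts

/-!
# Squad G02, row VB2: recipe B, the curve `V'`
-/

set_option autoImplicit false

namespace Pool.Agent.G02.H79

theorem ndp {l m : ℕ} (hl : l.Prime) (hm : m.Prime) (h : l ≠ m) : ¬ (l : ℤ) ∣ (m : ℤ) :=
  fun hd => h ((Nat.prime_dvd_prime_iff_eq hl hm).1 (Int.natCast_dvd_natCast.1 hd))

theorem ndpow2 {l : ℕ} (hl : l.Prime) (h : l ≠ 2) (n : ℕ) : ¬ (l : ℤ) ∣ 2 ^ n := fun hd => by
  have h1 := (Nat.prime_iff_prime_int.1 hl).dvd_of_dvd_pow hd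
  exact ndp hl Nat.prime_two h (by exact_mod_cast h1)

/-- VB2 -/
theorem vb2 (hSub : SubStmt) (hRlb : RlbStmt) (hLa : LaStmt) (hLd : LdStmt) (hRea : ReaStmt)
    (hSqf : Pool.Agent.NJ.SQFStmt) : Vb2Stmt := by
  intro k p q r _ hB hkq d M e N B hQ hpd
  have hp : p.Prime := hB.pp
  have hq : q.Prime := hB.pq
  have hr : r.Prime := hB.pr
  have : Fact p.Prime := ⟨hp⟩
  have : Fact r.Prime := ⟨hr⟩
  obtain ⟨hr8, s, S⟩ := hRlb k p q r hB
  have hpi : Prime (p : ℤ) := Nat.prime_iff_prime_int.1 hp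
  have hqi : Prime (q : ℤ) := Nat.prime_iff_prime_int.1 hq
  have hrr : (r : ℤ) = p + 2 * q := hB.hr
  have hk0 : k ≠ 0 := fun h => S.kp (h ▸ dvd_zero _)
  have hp0 : (0 : ℤ) < p := by exact_mod_cast hp.pos
  have hq0 : (0 : ℤ) < q := by exact_mod_cast hq.pos
  have hr0 : (0 : ℤ) < r := by exact_mod_cast hr.pos
  have hk2 : 0 < k ^ 2 := by positivity
  have hsup := (hSub k p q r hB d M e N B).2 hQ
  -- the symbols of -1 and 2
  have hq2 : legendreSym q 2 = -1 := by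
    rw [legendreSym.at_two S.q2, ZMod.χ₈_nat_eq_if_mod_eight, if_neg (by have := hB.mq; omega),
      if_neg (by have := hB.mq; omega)]
  have hp2 : legendreSym p 2 = -1 := by
    rw [legendreSym.at_two S.p2, ZMod.χ₈_nat_eq_if_mod_eight, if_neg (by have := hB.mp; omega),
      if_neg (by have := hB.mp; omega)]
  have hq1 : legendreSym q (-1) = 1 := by
    rw [legendreSym.at_neg_one S.q2, ZMod.χ₄_nat_one_mod_four (by have := hB.mq; omega)]
  -- the place q
  have hD : (4 * k * p * q : ℤ) ^ 2 - 4 * (4 * k ^ 2 * p * q ^ 2 * r) =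
      (q : ℤ) ^ 3 * (-(32 * k ^ 2 * p)) := by
    rw [hrr]; ring
  have h16 : ¬ (q : ℤ) ∣ 16 * k * p := by
    intro h
    rcases hqi.dvd_or_dvd h with h | h
    · rcases hqi.dvd_or_dvd h with h | h
      · exact ndpow2 hq S.q2 4 (by norm_num; exact h)
      · exact S.kq h
    · exact ndp hq hp (Ne.symm S.npq) h
  have hsym : legendreSym q (2 * (4 * k * p) * (-(32 * k ^ 2 * p))) = -1 := by
    have e1 : (2 * (4 * k * p) * (-(32 * k ^ 2 * p)) : ℤ) = (-1) * k * (16 * k * p) ^ 2 := by ring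
    rw [e1, legendreSym.mul, legendreSym.mul, hq1, hkq, legendreSym.sq_one']
    · norm_num
    · intro h
      exact h16 ((ZMod.intCast_zmod_eq_zero_iff_dvd _ q).1 h)
  obtain ⟨hqd, hqd1⟩ := hLd _ _ d M e N B hQ q (4 * k * p) (4 * k ^ 2 * p * r)
    (-(32 * k ^ 2 * p)) S.q2 (by ring) (by ring) hD hsym
  -- the place p
  have hpd1 : legendreSym p d = 1 := by
    refine hLa _ _ d M e N B hQ p S.p2 hpd (Or.inl ⟨⟨4 * k * q, by ring⟩,
      ⟨4 * k ^ 2 * q ^ 2 * r, by ring⟩, ?_⟩)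
    intro h
    have e1 : (4 * k ^ 2 * p * q ^ 2 * r : ℤ) = p * (2 ^ 2 * k ^ 2 * q ^ 2 * r) := by ring
    rw [e1, sq, mul_dvd_mul_iff_left hpi.ne_zero] at h
    rcases hpi.dvd_or_dvd h with h | h
    · rcases hpi.dvd_or_dvd h with h | h
      · rcases hpi.dvd_or_dvd h with h | h
        · exact ndpow2 hp S.p2 2 h
        · exact S.kp (hpi.dvd_of_dvd_pow h)
      · exact ndp hp hq S.npq (hpi.dvd_of_dvd_pow h)
    · exact ndp hp hr S.npr h
  -- positivity
  have hd0 : d ≠ 0 := hQ.sqf.ne_zero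
  have hdpos : 0 < d := by
    by_contra hc
    have h1 := (hRea _ _ d M e N B hQ (by omega) (by positivity)).2
    rw [hD] at h1
    have h2 : 0 < (q : ℤ) ^ 3 * (32 * k ^ 2 * p) := by positivity
    linarith
  obtain ⟨ε, hε, hd⟩ := (hSqf d r q hQ.sqf hr hq S.r2 S.q2 (Ne.symm S.nqr)).1 (by
    intro l hl hld
    rcases hsup l hl hld with h | h | h | h
    · exact Or.inl h
    · rw [h] at hld; exact absurd hld hpd
    · rw [h] at hld; exact absurd hld hqd
    · exact Or.inr h)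
  have hε1 : ε = 1 := by
    rcases hε with h | h
    · exact h
    · exfalso
      rw [h] at hd
      rcases hd with h | h | h | h <;> rw [h] at hdpos <;> linarith
  rw [hε1] at hd
  simp only [one_mul] at hd
  rcases hd with h | h | h | h
  · exact h
  · exfalso
    rw [h, hp2] at hpd1
    norm_num at hpd1
  · exfalso
    rw [h] at hpd1 hqd1
    rw [S.hpR] at hpd1
    rw [S.hqR] at hqd1
    rw [hqd1] at hpd1
    norm_num at hpd1
  · exfalso
    rw [h, legendreSym.mul] at hpd1 hqd1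
    rw [hp2, S.hpR] at hpd1
    rw [hq2, S.hqR] at hqd1
    linarith

end Pool.Agent.G02.H79
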